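import Pool.Agent.W626.FR.Stms

set_option autoImplicit false

/-!
# Domination (task FR-CLAIM)
-/

namespace Pool.Agent.W298.FR

open MeasureTheory ProbabilityTheory Filter FrogGW FrogRec
open scoped ENNReal NNReal Classical Topology

/-- Replacing one coordinate of a product measure. -/
theorem map_update {X : Type} [MeasurableSpace X] (μ μ' : ℕ → Measure X)
    [∀ k, IsProbabilityMeasure (μ k)] [∀ k, IsProbabilityMeasure (μ' k)] (J : ℕ)
    (h : ∀ k, k ≠ J → μ' k = μ k) :
    Measurable (fun q : X × (ℕ → X) => Function.update q.2 J q.1) ∧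
    ((μ J).prod (Measure.infinitePi μ')).map
      (fun q : X × (ℕ → X) => Function.update q.2 J q.1) = Measure.infinitePi μ := by
  have hm : Measurable (fun q : X × (ℕ → X) => Function.update q.2 J q.1) := by
    rw [measurable_pi_iff]
    intro a
    by_cases ha : a = J
    · subst ha
      simp only [Function.update_self]
      exact measurable_fst
    · simp only [Function.update_of_ne ha]
      exact (measurable_pi_apply a).comp measurable_snd
  refine ⟨hm, ?_⟩
  apply Measure.eq_infinitePi
  intro s t ht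
  rw [Measure.map_apply hm (MeasurableSet.pi s.countable_toSet fun i _ => ht i)]
  by_cases hJ : J ∈ s
  · have e : (fun q : X × (ℕ → X) => Function.update q.2 J q.1) ⁻¹' (Set.pi s t) =
        t J ×ˢ (Set.pi (s.erase J : Finset ℕ) t) := by
      ext q
      simp only [Set.mem_preimage, Set.mem_pi, Set.mem_prod, Finset.mem_coe, Finset.mem_erase]
      constructor
      · intro hq
        refine ⟨?_, ?_⟩
        · have := hq J hJ
          rwa [Function.update_self] at this
        · rintro i ⟨hi, his⟩
          have := hq i his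
          rwa [Function.update_of_ne hi] at this
      · rintro ⟨h1, h2⟩ i hi
        by_cases hiJ : i = J
        · subst hiJ
          rwa [Function.update_self]
        · rw [Function.update_of_ne hiJ]
          exact h2 i ⟨hiJ, hi⟩
    rw [e, Measure.prod_prod, Measure.infinitePi_pi _ (fun i _ => ht i),
      ← Finset.mul_prod_erase s _ hJ]
    congr 1
    apply Finset.prod_congr rfl
    intro i hi
    rw [h i (Finset.ne_of_mem_erase hi)]
  · have e : (fun q : X × (ℕ → X) => Function.update q.2 J q.1) ⁻¹' (Set.pi s t) =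
        Set.univ ×ˢ (Set.pi s t) := by
      ext q
      simp only [Set.mem_preimage, Set.mem_pi, Set.mem_prod, Finset.mem_coe, Set.mem_univ,
        true_and]
      constructor
      · intro hq i hi
        have hiJ : i ≠ J := fun he => hJ (he ▸ hi)
        have := hq i hi
        rwa [Function.update_of_ne hiJ] at this
      · intro hq i hi
        have hiJ : i ≠ J := fun he => hJ (he ▸ hi)
        rw [Function.update_of_ne hiJ]
        exact hq i hi
    rw [e, Measure.prod_prod, Measure.infinitePi_pi _ (fun i _ => ht i), measure_univ, one_mul]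
    apply Finset.prod_congr rfl
    intro i hi
    rw [h i (fun he => hJ (he ▸ hi))]

/-- The integral as a function of the law of one coordinate. -/
theorem lint_WW (ν : ℕ → Measure ℝ≥0) (J : ℕ) (Ψ : (ℕ → ℝ × ℝ≥0) → ℝ≥0∞) (hΨ : Measurable Ψ) :
    ∃ H : ℝ≥0 → ℝ≥0∞, Measurable H ∧ ∀ ν' : ℕ → Measure ℝ≥0, (∀ k, k ≠ J → ν' k = ν k) →
      ∫⁻ w, Ψ w ∂(WW ν') = ∫⁻ lam, H lam ∂(pr (ν' J)) := by
  have hm0 : Measurable (fun q : (ℝ × ℝ≥0) × (ℕ → ℝ × ℝ≥0) => Function.update q.2 J q.1) :=
    (map_update (fun k => unif.prod (pr (ν k))) (fun k => unif.prod (pr (ν k))) J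
      (fun _ _ => rfl)).1
  have hm1 : Measurable fun x : ℝ × ℝ≥0 => ∫⁻ w, Ψ (Function.update w J x) ∂(WW ν) :=
    (hΨ.comp hm0).lintegral_prod_right'
  refine ⟨fun lam => ∫⁻ u, ∫⁻ w, Ψ (Function.update w J (u, lam)) ∂(WW ν) ∂unif,
    hm1.lintegral_prod_left', ?_⟩
  intro ν' hν'
  have h1 := (map_update (fun k => unif.prod (pr (ν' k))) (fun k => unif.prod (pr (ν k))) J
    (fun k hk => by rw [hν' k hk])).2
  have h2 : WW ν' = ((unif.prod (pr (ν' J))).prod (WW ν)).map
      (fun q : (ℝ × ℝ≥0) × (ℕ → ℝ × ℝ≥0) => Function.update q.2 J q.1) := h1.symm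
  have h3 : ∫⁻ q : (ℝ × ℝ≥0) × (ℕ → ℝ × ℝ≥0), Ψ (Function.update q.2 J q.1)
      ∂((unif.prod (pr (ν' J))).prod (WW ν)) =
      ∫⁻ x, ∫⁻ w, Ψ (Function.update w J x) ∂(WW ν) ∂(unif.prod (pr (ν' J))) :=
    lintegral_prod _ (hΨ.comp hm0).aemeasurable
  rw [h2, lintegral_map hΨ hm0, h3, lintegral_prod_symm _ hm1.aemeasurable]

theorem pr_eq (ν : Measure ℝ≥0) (h : IsProbabilityMeasure ν) : pr ν = ν := if_pos h

theorem claim : TaskAlg → TaskOpn → TaskNu → TaskThr → TaskRed → TaskMono → TaskSelMeas →
    TaskClaim := by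
  intro hAlg hOpn hNu hThr hRed hMono hSel mu n
  obtain ⟨hA1, hA2, hA3, hA4⟩ := hAlg
  obtain ⟨-, hO2, -, -, -, -⟩ := hOpn
  obtain ⟨-, hN2, hN3, -⟩ := hNu
  induction n with
  | zero =>
    intro Z φ hφ
    have h1 : ∀ η : Ix → Bool, Lam mu 0 Z η {[]} = 0 := by
      intro η
      simp [Lam, vert]
    have h2 : bt 0 Z [] [] = 1 := by simp [bt]
    simp only [lev, Finset.sum_singleton, h1, h2, kap, nu, lintegral_const, measure_univ,
      lintegral_dirac, ENNReal.coe_one, mul_one, one_mul, le_refl]
  | succ n ih =>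
    intro Z φ hφ
    have hφm : Measurable φ := hφ.measurable
    set D := Z [] with hD
    set c : ℝ≥0 := 1 + KK n Z with hc
    have hcpos : 0 < c := by positivity
    -- the function of the children
    set Φ : ℕ → (ℕ → ℝ × ℝ≥0) → ℝ≥0∞ := fun J w =>
      φ (Sel (mu + (w J).2) c (kc n Z) ((Finset.range D).erase J) w) with hΦ
    have hΦm : ∀ J, Measurable (Φ J) := by
      intro J
      have h1 := hSel c (kc n Z) ((Finset.range D).erase J) hcpos
      have h2 : Measurable fun w : ℕ → ℝ × ℝ≥0 => (mu + (w J).2, w) := by fun_prop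
      exact hφm.comp (h1.comp h2)
    have hlawz : ∀ k z, IsProbabilityMeasure (lawz mu n Z k z) := by
      intro k z
      exact Measure.isProbabilityMeasure_map (hO2 mu n (sh k Z) {z}).aemeasurable
    have hnuF : ∀ k, IsProbabilityMeasure (nuF mu n Z k) := by
      intro k
      unfold nuF
      split_ifs with h
      · constructor
        rw [Measure.coe_finsetSum, Finset.sum_apply]
        have : ∀ z, (((bt n (sh k Z) [] z / kap n (sh k Z) : ℝ≥0) : ℝ≥0∞) • lawz mu n Z k z)
            Set.univ = ((bt n (sh k Z) [] z / kap n (sh k Z) : ℝ≥0) : ℝ≥0∞) := by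
          intro z
          have := hlawz k z
          rw [Measure.smul_apply, measure_univ, smul_eq_mul, mul_one]
        simp only [this]
        rw [← ENNReal.ofNNReal_finsetSum, ← Finset.sum_div, (hA4 n (sh k Z)).2.1, div_self h.2,
          ENNReal.coe_one]
      · infer_instance
    have hnc : ∀ k, IsProbabilityMeasure (nc mu n Z k) := by
      intro k
      unfold nc
      split_ifs
      · exact hN2 _ _ _
      · infer_instance
    -- the sum over the leaves
    have hlev : lev Z (n + 1) = (Finset.range D).biUnion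
        (fun J => (lev (sh J Z) n).image (fun z => z ++ [J])) := by
      ext x
      simp only [Finset.mem_biUnion, Finset.mem_image, Finset.mem_range]
      constructor
      · intro hx
        have hl := (hA2 (n + 1) Z x).2 hx
        rcases List.eq_nil_or_concat x with rfl | ⟨y, i, rfl⟩
        · simp at hl
        · rw [List.concat_eq_append] at hx
          have := ((hA1 n Z i y).2.mp hx)
          exact ⟨i, this.1, y, this.2, by rw [List.concat_eq_append]⟩
      · rintro ⟨i, hi, y, hy, rfl⟩
        exact (hA1 n Z i y).2.mpr ⟨hi, hy⟩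
    have hsum : ∀ f : List ℕ → ℝ≥0∞, ∑ z ∈ lev Z (n + 1), f z =
        ∑ J ∈ Finset.range D, ∑ z ∈ lev (sh J Z) n, f (z ++ [J]) := by
      intro f
      rw [hlev, Finset.sum_biUnion]
      · apply Finset.sum_congr rfl
        intro J _
        rw [Finset.sum_image]
        intro a _ b _ hab
        exact List.append_cancel_right hab
      · intro a _ b _ hab
        rw [Function.onFun, Finset.disjoint_left]
        intro x hx hx'
        obtain ⟨y, -, rfl⟩ := Finset.mem_image.mp hx
        obtain ⟨y', -, h'⟩ := Finset.mem_image.mp hx'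
        have := List.append_inj' h' rfl
        exact hab (by simpa using this.2.symm)
    have hFF : FF (n + 1) Z [] = c⁻¹ := (hA4 n Z).1
    -- one child
    have hchild : ∀ J ∈ Finset.range D,
        ∑ z ∈ lev (sh J Z) n, (bt (n + 1) Z [] (z ++ [J]) : ℝ≥0∞) *
          ∫⁻ η, φ (Lam mu (n + 1) Z η {z ++ [J]}) ∂(PB mu (n + 1) Z) ≤
        ((c⁻¹ * kap n (sh J Z) : ℝ≥0) : ℝ≥0∞) * ∫⁻ w, Φ J w ∂(WW (nc mu n Z)) := by
      intro J hJ
      rw [Finset.mem_range] at hJ
      have s1 : ∀ z ∈ lev (sh J Z) n, (bt (n + 1) Z [] (z ++ [J]) : ℝ≥0∞) *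
          ∫⁻ η, φ (Lam mu (n + 1) Z η {z ++ [J]}) ∂(PB mu (n + 1) Z) ≤
          ((c⁻¹ : ℝ≥0) : ℝ≥0∞) * ((bt n (sh J Z) [] z : ℝ≥0∞) * ∫⁻ w, Φ J w
            ∂(WW fun k => if k = J then lawz mu n Z J z else nuF mu n Z k)) := by
        intro z hz
        rw [(hA3 n Z J [] z).2.2.2.2.1, hFF, ENNReal.coe_mul, mul_assoc]
        gcongr
        rw [hThr mu n Z φ (z ++ [J]) hφ ((hA1 n Z J z).2.mpr ⟨hJ, hz⟩)]
        exact hRed mu n Z φ J z hφ hJ hz
      refine (Finset.sum_le_sum s1).trans ?_
      rw [← Finset.mul_sum, ENNReal.coe_mul, mul_assoc]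
      gcongr
      by_cases hκ : kap n (sh J Z) = 0
      · have hem : lev (sh J Z) n = ∅ := by
          by_contra hne
          obtain ⟨z, hz⟩ := Finset.nonempty_iff_ne_empty.mpr hne
          have h1 := (hA4 n (sh J Z)).2.2.2.1 z hz
          have h2 : bt n (sh J Z) [] z ≤ ∑ z ∈ lev (sh J Z) n, bt n (sh J Z) [] z :=
            Finset.single_le_sum (fun _ _ => zero_le) hz
          rw [(hA4 n (sh J Z)).2.1, hκ] at h2
          exact absurd h1 (not_lt.mpr h2)
        rw [hem]
        simp
      · obtain ⟨H, hHm, hH⟩ := lint_WW (nuF mu n Z) J (Φ J) (hΦm J)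
        have t1 : ∀ z, ∫⁻ w, Φ J w
            ∂(WW fun k => if k = J then lawz mu n Z J z else nuF mu n Z k) =
            ∫⁻ lam, H lam ∂(lawz mu n Z J z) := by
          intro z
          rw [hH _ (fun k hk => if_neg hk), if_pos rfl, pr_eq _ (hlawz J z)]
        have t2 : ∫⁻ w, Φ J w ∂(WW (nuF mu n Z)) = ∫⁻ lam, H lam ∂(nuF mu n Z J) := by
          rw [hH _ (fun k _ => rfl), pr_eq _ (hnuF J)]
        have t3 : (kap n (sh J Z) : ℝ≥0∞) * ∫⁻ w, Φ J w ∂(WW (nuF mu n Z)) =
            ∑ z ∈ lev (sh J Z) n, (bt n (sh J Z) [] z : ℝ≥0∞) * ∫⁻ w, Φ J w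
              ∂(WW fun k => if k = J then lawz mu n Z J z else nuF mu n Z k) := by
          rw [t2]
          have e : nuF mu n Z J = ∑ z ∈ lev (sh J Z) n,
              ((bt n (sh J Z) [] z / kap n (sh J Z) : ℝ≥0) : ℝ≥0∞) • lawz mu n Z J z := by
            unfold nuF
            rw [if_pos ⟨hJ, hκ⟩]
          rw [e, lintegral_finsetSum_measure, Finset.mul_sum]
          apply Finset.sum_congr rfl
          intro z _
          rw [t1, lintegral_smul_measure, smul_eq_mul, ← mul_assoc, ← ENNReal.coe_mul]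
          congr 2
          field_simp
        rw [← t3]
        gcongr _ * ?_
        -- monotonicity
        apply hMono mu c (kc n Z) _ J _ _ φ hcpos (Finset.notMem_erase J _) hnuF hnc hφ
        intro k _ ψ hψ
        have hψm : Measurable ψ := hψ.measurable
        by_cases hk : k < D
        · have enc : nc mu n Z k = nu mu n (sh k Z) := if_pos hk
          rw [enc]
          by_cases hκk : kap n (sh k Z) = 0
          · have e : nuF mu n Z k = Measure.dirac 0 := by
              unfold nuF
              rw [if_neg (fun h => h.2 hκk)]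
            rw [e, hN3 _ _ _ hκk]
          · have e : nuF mu n Z k = ∑ z ∈ lev (sh k Z) n,
                ((bt n (sh k Z) [] z / kap n (sh k Z) : ℝ≥0) : ℝ≥0∞) • lawz mu n Z k z := by
              unfold nuF
              rw [if_pos ⟨hk, hκk⟩]
            rw [e, lintegral_finsetSum_measure]
            have i1 := ih (sh k Z) ψ hψ
            have i2 : ∑ z ∈ lev (sh k Z) n, ∫⁻ a, ψ a
                ∂(((bt n (sh k Z) [] z / kap n (sh k Z) : ℝ≥0) : ℝ≥0∞) • lawz mu n Z k z) =
                (((kap n (sh k Z))⁻¹ : ℝ≥0) : ℝ≥0∞) * ∑ z ∈ lev (sh k Z) n,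
                  (bt n (sh k Z) [] z : ℝ≥0∞) *
                    ∫⁻ η, ψ (Lam mu n (sh k Z) η {z}) ∂(PB mu n (sh k Z)) := by
              rw [Finset.mul_sum]
              apply Finset.sum_congr rfl
              intro z _
              rw [lintegral_smul_measure, smul_eq_mul, lawz,
                lintegral_map hψm (hO2 mu n (sh k Z) {z}), ← mul_assoc, ← ENNReal.coe_mul]
              congr 2
              rw [div_eq_mul_inv, mul_comm]
            rw [i2]
            calc (((kap n (sh k Z))⁻¹ : ℝ≥0) : ℝ≥0∞) * ∑ z ∈ lev (sh k Z) n,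
                  (bt n (sh k Z) [] z : ℝ≥0∞) *
                    ∫⁻ η, ψ (Lam mu n (sh k Z) η {z}) ∂(PB mu n (sh k Z))
                ≤ (((kap n (sh k Z))⁻¹ : ℝ≥0) : ℝ≥0∞) * ((kap n (sh k Z) : ℝ≥0∞) *
                    ∫⁻ lam, ψ lam ∂(nu mu n (sh k Z))) := by gcongr
              _ = ∫⁻ lam, ψ lam ∂(nu mu n (sh k Z)) := by
                rw [← mul_assoc, ← ENNReal.coe_mul, inv_mul_cancel₀ hκk, ENNReal.coe_one,
                  one_mul]
        · have e1 : nuF mu n Z k = Measure.dirac 0 := by
            unfold nuF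
            rw [if_neg (fun h => hk h.1)]
          have e2 : nc mu n Z k = Measure.dirac 0 := by
            unfold nc
            rw [if_neg hk]
          rw [e1, e2]
    -- the left side
    have hL : ∑ z ∈ lev Z (n + 1), (bt (n + 1) Z [] z : ℝ≥0∞) *
        ∫⁻ η, φ (Lam mu (n + 1) Z η {z}) ∂(PB mu (n + 1) Z) ≤
        ∑ J ∈ Finset.range D, ((c⁻¹ * kap n (sh J Z) : ℝ≥0) : ℝ≥0∞) *
          ∫⁻ w, Φ J w ∂(WW (nc mu n Z)) := by
      rw [hsum]
      exact Finset.sum_le_sum hchild
    refine hL.trans ?_
    -- the right side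
    have hkc : ∑ k ∈ Finset.range D, kc n Z k = KK n Z := by
      unfold KK
      apply Finset.sum_congr rfl
      intro k hk
      unfold kc
      rw [if_pos (Finset.mem_range.mp hk)]
    have hkap : kap (n + 1) Z = KK n Z / c := rfl
    have hnu : nu mu (n + 1) Z = FrogRec.star mu D (kc n Z) (nc mu n Z) := rfl
    by_cases hK : KK n Z = 0
    · have : ∀ J ∈ Finset.range D, kap n (sh J Z) = 0 := by
        intro J hJ
        have h1 : kap n (sh J Z) ≤ KK n Z :=
          Finset.single_le_sum (f := fun i => kap n (sh i Z)) (fun _ _ => zero_le) hJ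
        rw [hK] at h1
        exact le_antisymm h1 zero_le
      rw [Finset.sum_eq_zero]
      · exact zero_le
      · intro J hJ
        rw [this J hJ, mul_zero, ENNReal.coe_zero, zero_mul]
    · rw [hnu, hkap]
      unfold FrogRec.star
      rw [hkc, if_neg hK, lintegral_finsetSum_measure, Finset.mul_sum]
      apply Finset.sum_le_sum
      intro J hJ
      have hSm : Measurable fun w : ℕ → ℝ × ℝ≥0 =>
          Sel (mu + (w J).2) (1 + KK n Z) (kc n Z) ((Finset.range D).erase J) w := by
        have h1 := hSel c (kc n Z) ((Finset.range D).erase J) hcpos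
        have h2 : Measurable fun w : ℕ → ℝ × ℝ≥0 => (mu + (w J).2, w) := by fun_prop
        exact h1.comp h2
      rw [lintegral_smul_measure, lintegral_map hφm hSm, smul_eq_mul, ← mul_assoc,
        ← ENNReal.coe_mul]
      apply le_of_eq
      have hk : kc n Z J = kap n (sh J Z) := by
        unfold kc
        rw [if_pos (Finset.mem_range.mp hJ)]
      rw [hk]
      congr 2
      field_simp

end Pool.Agent.W298.FR
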