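import Pool.Agent.W626.FR.Stms

set_option autoImplicit false

/-!
# Decomposition of the opened set at the root (task FR-DEC)
-/

namespace Pool.Agent.W298.FR

open MeasureTheory ProbabilityTheory Filter FrogGW FrogRec
open scoped ENNReal NNReal Classical Topology

theorem suffix_snoc {α : Type} {a b : List α} {i j : α} :
    a ++ [i] <:+ b ++ [j] ↔ i = j ∧ a <:+ b := by
  constructor
  · rintro ⟨p, hp⟩
    rw [← List.append_assoc] at hp
    have := List.append_inj' hp rfl
    exact ⟨by simpa using this.2, p, this.1⟩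
  · rintro ⟨rfl, p, rfl⟩
    exact ⟨p, by simp⟩

theorem suffix_snoc_right {α : Type} {t b : List α} {j : α} (h : t <:+ b ++ [j]) :
    t = [] ∨ ∃ a, t = a ++ [j] ∧ a <:+ b := by
  rcases List.eq_nil_or_concat t with rfl | ⟨a, i, rfl⟩
  · exact Or.inl rfl
  · right
    rw [List.concat_eq_append] at h ⊢
    obtain ⟨rfl, h2⟩ := suffix_snoc.mp h
    exact ⟨a, rfl, h2⟩

theorem bet_ne {N : ℕ} {Z : Env} {x t z : List ℕ} (h : FrogRec.bet N Z x t z ≠ 0) :
    x ∈ vert Z N ∧ z ∈ lev Z N ∧ t <:+ x ∧ t <:+ z := by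
  unfold FrogRec.bet at h
  by_contra hc
  rw [if_neg hc] at h
  exact h rfl

/-- Opened vertices if the leaves in `V` are entered. -/
def AV (n : ℕ) (Z : Env) (η : Ix → Bool) (V : Finset (List ℕ)) (x : List ℕ) : Prop :=
  x = [] ∨ ∃ i x', i < Z [] ∧ x = x' ++ [i] ∧ Opn n (inner i η) {z' | z' ++ [i] ∈ V} x'

theorem dec : TaskAlg → TaskDec := by
  intro hAlg n Z η z0 hz0 hη
  obtain ⟨hA1, hA2, -, -⟩ := hAlg
  have hlast : ∀ z ∈ lev Z (n + 1), ∃ i z', i < Z [] ∧ z = z' ++ [i] := by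
    intro z hz
    have hl := (hA2 (n + 1) Z z).2 hz
    rcases List.eq_nil_or_concat z with rfl | ⟨z', J, rfl⟩
    · simp at hl
    · rw [List.concat_eq_append] at hz ⊢
      exact ⟨J, z', ((hA1 n Z J z').2.mp hz).1, rfl⟩
  -- vertices above an entered leaf
  have hdown : ∀ V : Finset (List ℕ), ∀ z ∈ V, z ∈ lev Z (n + 1) → ∀ y, y <:+ z →
      y.length < n + 1 → AV n Z η V y := by
    intro V z hzV hz y hy hyl
    obtain ⟨i, z', hi, rfl⟩ := hlast z hz
    rcases suffix_snoc_right hy with rfl | ⟨a, rfl, ha⟩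
    · exact Or.inl rfl
    · right
      refine ⟨i, a, hi, rfl, Opn.start (z := z') hzV ha ?_⟩
      simpa using hyl
  have hA : ∀ V : Finset (List ℕ), V ⊆ lev Z (n + 1) → z0 ∈ V →
      (∀ y ∈ lev Z (n + 1), (∃ x, AV n Z η V x ∧ η (x, [], y) = true) → y ∈ V) →
      ∀ x, Opn (n + 1) η {z0} x → AV n Z η V x := by
    intro V hV h0 hcl x hx
    induction hx with
    | start hz hy hyl =>
      rw [Set.mem_singleton_iff] at hz
      subst hz
      exact hdown V _ h0 (hV h0) _ hy hyl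
    | @step x t z y hx hη1 hty hyz hyl ih =>
      obtain ⟨hxv, hzl, htx, htz⟩ := bet_ne (hη x t z hη1)
      rcases List.eq_nil_or_concat t with rfl | ⟨t', i, rfl⟩
      · have hzV : z ∈ V := hcl z hzl ⟨x, ih, hη1⟩
        exact hdown V z hzV hzl y hyz hyl
      · rw [List.concat_eq_append] at hη1 hty htx htz
        rcases ih with rfl | ⟨j, x', hj, rfl, hx'⟩
        · exfalso
          have := List.suffix_nil.mp htx
          simp at this
        · obtain ⟨rfl, htx'⟩ := suffix_snoc.mp htx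
          obtain ⟨k, z', hk, rfl⟩ := hlast z hzl
          obtain ⟨rfl, htz'⟩ := suffix_snoc.mp htz
          rcases suffix_snoc_right hyz with rfl | ⟨y', rfl, hyz'⟩
          · exact Or.inl rfl
          · obtain ⟨-, hty'⟩ := suffix_snoc.mp hty
            right
            refine ⟨i, y', hj, rfl, Opn.step hx' (t := t') (z := z') hη1 hty' hyz' ?_⟩
            simpa using hyl
  set E := (lev Z (n + 1)).filter fun z => z = z0 ∨
        ∃ x1, Opn (n + 1) η {z0} x1 ∧ η (x1, [], z) = true with hE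
  have hEs : E ⊆ lev Z (n + 1) := Finset.filter_subset _ _
  have h0E : z0 ∈ E := Finset.mem_filter.mpr ⟨hz0, Or.inl rfl⟩
  have hback : ∀ x, AV n Z η E x → Opn (n + 1) η {z0} x := by
    intro x hx
    rcases hx with rfl | ⟨i, x', hi, rfl, hx'⟩
    · exact Opn.start (z := z0) rfl List.nil_suffix (by simp)
    · induction hx' with
      | @start z y hz hy hyl =>
        have hz' : z ++ [i] ∈ E := hz
        rcases (Finset.mem_filter.mp hz').2 with h | ⟨x1, h1, h2⟩
        · exact Opn.start (z := z ++ [i]) h (suffix_snoc.mpr ⟨rfl, hy⟩) (by simpa using hyl)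
        · exact Opn.step h1 h2 List.nil_suffix (suffix_snoc.mpr ⟨rfl, hy⟩) (by simpa using hyl)
      | @step x t z y hx hη1 hty hyz hyl ih =>
        exact Opn.step ih (t := t ++ [i]) (z := z ++ [i]) hη1 (suffix_snoc.mpr ⟨rfl, hty⟩)
          (suffix_snoc.mpr ⟨rfl, hyz⟩) (by simpa using hyl)
  have hclE : ∀ y ∈ lev Z (n + 1), (∃ x, AV n Z η E x ∧ η (x, [], y) = true) → y ∈ E := by
    rintro y hy ⟨x, hx, hxy⟩
    exact Finset.mem_filter.mpr ⟨hy, Or.inr ⟨x, hback x hx, hxy⟩⟩
  refine ⟨fun x => ⟨hA E hEs h0E hclE x, hback x⟩, ?_⟩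
  rw [hE]
  apply Finset.filter_congr
  intro z hz
  constructor
  · rintro (rfl | ⟨x1, h1, h2⟩) V hV h0 hcl
    · exact h0
    · exact hcl z hz ⟨x1, hA V hV h0 hcl x1 h1, h2⟩
  · intro h
    exact (Finset.mem_filter.mp (h E hEs h0E hclE)).2

end Pool.Agent.W298.FR
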