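import Pool.Agent.W626.FR.Stms

set_option autoImplicit false

/-!
# The probabilistic half (task FR-FROG)
-/

namespace Pool.Agent.W298.FR

open MeasureTheory ProbabilityTheory Filter FrogGW FrogRec
open scoped ENNReal NNReal Classical Topology

/-- Sums over the leaves. -/
theorem sum_lev
    (hA1 : ∀ (n : ℕ) (Z : Env) (i : ℕ) (x : List ℕ),
      (x ++ [i] ∈ vert Z (n + 1) ↔ i < Z [] ∧ x ∈ vert (sh i Z) n) ∧
      (x ++ [i] ∈ lev Z (n + 1) ↔ i < Z [] ∧ x ∈ lev (sh i Z) n))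
    (hA2 : ∀ (n : ℕ) (Z : Env) (x : List ℕ), (x ∈ vert Z n → x.length < n) ∧
      (x ∈ lev Z n → x.length = n)) (n : ℕ) (Z : Env) {M : Type} [AddCommMonoid M]
    (f : List ℕ → M) :
    ∑ z ∈ lev Z (n + 1), f z =
      ∑ J ∈ Finset.range (Z []), ∑ z ∈ lev (sh J Z) n, f (z ++ [J]) := by
  have hlev : lev Z (n + 1) = (Finset.range (Z [])).biUnion
      (fun J => (lev (sh J Z) n).image (fun z => z ++ [J])) := by
    ext x
    simp only [Finset.mem_biUnion, Finset.mem_image, Finset.mem_range]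
    constructor
    · intro hx
      have hl := (hA2 (n + 1) Z x).2 hx
      rcases List.eq_nil_or_concat x with rfl | ⟨y, i, rfl⟩
      · simp at hl
      · rw [List.concat_eq_append] at hx
        have := ((hA1 n Z i y).2.mp hx)
        exact ⟨i, this.1, y, this.2, by rw [List.concat_eq_append]⟩
    · rintro ⟨i, hi, y, hy, rfl⟩
      exact (hA1 n Z i y).2.mpr ⟨hi, hy⟩
  rw [hlev, Finset.sum_biUnion]
  · apply Finset.sum_congr rfl
    intro J _
    rw [Finset.sum_image]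
    intro a _ b _ hab
    exact List.append_cancel_right hab
  · intro a _ b _ hab
    rw [Function.onFun, Finset.disjoint_left]
    intro x hx hx'
    obtain ⟨y, -, rfl⟩ := Finset.mem_image.mp hx
    obtain ⟨y', -, h'⟩ := Finset.mem_image.mp hx'
    have := List.append_inj' h' rfl
    exact hab (by simpa using this.2.symm)

/-- The law of the walk of the particle at the root. -/
theorem law_root (mu : ℝ≥0) (S : Set (ℕ → ℝ)) (hS : MeasurableSet S) :
    FM mu {ω | (ω []).2 0 ∈ S} = (Measure.infinitePi fun _ : ℕ => unif) S := by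
  have h1 : MeasurePreserving (fun ω : Conf => ω []) (FM mu) (vertexLaw mu) :=
    measurePreserving_eval_infinitePi (fun _ : List ℕ => vertexLaw mu) []
  have h2 : MeasurePreserving (fun r : Rd => r.2) (vertexLaw mu)
      (Measure.infinitePi fun _ : ℕ => Measure.infinitePi fun _ : ℕ => unif) := by
    unfold vertexLaw
    exact measurePreserving_snd
  have h3 : MeasurePreserving (fun v : ℕ → ℕ → ℝ => v 0)
      (Measure.infinitePi fun _ : ℕ => Measure.infinitePi fun _ : ℕ => unif)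
      (Measure.infinitePi fun _ : ℕ => unif) :=
    measurePreserving_eval_infinitePi (fun _ : ℕ => Measure.infinitePi fun _ : ℕ => unif) 0
  have h4 := (h3.comp h2).comp h1
  rw [← h4.measure_preimage hS.nullMeasurableSet]
  rfl

theorem frog : TaskAlg → TaskClaim → TaskCEm → TaskCEp → TaskGeo → TaskLaw → TaskFrog := by
  intro hAlg hClaim hCEm hCEp hGeo hLaw mu n Z F hK hF
  obtain ⟨hA1, hA2, hA3, hA4⟩ := hAlg
  obtain ⟨hm1, -, hm3, -, -⟩ := hCEm
  obtain ⟨-, hp2, -⟩ := hCEp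
  set D := Z [] with hD
  set U : Measure (ℕ → ℝ) := Measure.infinitePi fun _ : ℕ => unif with hU
  set S : List ℕ → Set (ℕ → ℝ) := fun z => {u | CE Z (n + 1) [] [] z u} with hS
  have hSm : ∀ z, MeasurableSet (S z) := fun z => hm1 Z (n + 1) [] [] z
  have hUS : ∀ z ∈ lev Z (n + 1), U (S z) = ((bt (n + 1) Z [] z / kap (n + 1) Z : ℝ≥0) : ℝ≥0∞) :=
    fun z hz => hp2 Z n z hK hz
  have hkap : kap (n + 1) Z = KK n Z / (1 + KK n Z) := rfl
  have hkap0 : kap (n + 1) Z ≠ 0 := by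
    rw [hkap]
    have : (1 + KK n Z) ≠ 0 := by positivity
    exact div_ne_zero hK this
  -- one of the classes occurs
  have hone : U (⋃ z ∈ lev Z (n + 1), S z) = 1 := by
    rw [measure_biUnion_finset]
    · rw [Finset.sum_congr rfl hUS, ← ENNReal.ofNNReal_finsetSum, ← Finset.sum_div,
        (hA4 (n + 1) Z).2.1, div_self hkap0, ENNReal.coe_one]
    · intro a _ b _ hab
      rw [Function.onFun, Set.disjoint_left]
      intro u hu hu'
      exact hab (hm3 Z (n + 1) [] [] a [] b u hu hu').2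
    · intro z _
      exact hSm z
  have hzero : FM mu {ω | (ω []).2 0 ∈ (⋃ z ∈ lev Z (n + 1), S z)ᶜ} = 0 := by
    have hms : MeasurableSet (⋃ z ∈ lev Z (n + 1), S z) :=
      Finset.measurableSet_biUnion _ fun z _ => hSm z
    rw [law_root mu _ hms.compl]
    rw [prob_compl_eq_zero_iff hms]
    exact hone
  -- inclusion
  set A : Set Conf := {ω | ∀ x j, Active Z ω x → j < cnt x (ω x) → x ∉ F → ∀ k,
        walk Z x ((ω x).2 j) k ≠ []} with hA
  have hincl : A ⊆ {ω | (ω []).2 0 ∈ (⋃ z ∈ lev Z (n + 1), S z)ᶜ} ∪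
      ⋃ J ∈ Finset.range D, ⋃ z ∈ lev (sh J Z) n,
        ({ω | (ω []).2 0 ∈ S (z ++ [J])} ∩ NoV Z n J z F) := by
    intro ω hω
    by_cases h : (ω []).2 0 ∈ (⋃ z ∈ lev Z (n + 1), S z)
    · right
      simp only [Set.mem_iUnion] at h
      obtain ⟨z, hz, hzS⟩ := h
      have hl := (hA2 (n + 1) Z z).2 hz
      rcases List.eq_nil_or_concat z with rfl | ⟨z', J, rfl⟩
      · simp at hl
      · rw [List.concat_eq_append] at hz hzS
        obtain ⟨hJ, hz'⟩ := (hA1 n Z J z').2.mp hz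
        simp only [Set.mem_iUnion]
        refine ⟨J, Finset.mem_range.mpr hJ, z', hz', hzS, ?_⟩
        intro x _ hx hxF j hj hVE
        have hact : Active Z ω (x ++ [J]) := hGeo Z n ω J z' hzS x hx
        obtain ⟨k, hk, -⟩ := hVE
        refine hω (x ++ [J]) j hact ?_ hxF k hk
        cases x with
        | nil => exact hj
        | cons a x => exact hj
    · left
      exact h
  refine (measure_mono hincl).trans ((measure_union_le _ _).trans ?_)
  rw [hzero, zero_add]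
  refine (measure_biUnion_finset_le _ _).trans ?_
  rw [Finset.mul_sum]
  apply Finset.sum_le_sum
  intro J hJ
  have hJ' : J < Z [] := Finset.mem_range.mp hJ
  refine (measure_biUnion_finset_le _ _).trans ?_
  have hφ : Antitone fun lam : ℝ≥0 => ENNReal.ofReal (Real.exp (-(lam : ℝ))) := by
    intro a b hab
    apply ENNReal.ofReal_le_ofReal
    apply Real.exp_le_exp.mpr
    have : (a : ℝ) ≤ b := by exact_mod_cast hab
    linarith
  have hcl := hClaim mu n (sh J Z) _ hφ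
  have hterm : ∀ z ∈ lev (sh J Z) n,
      FM mu ({ω | (ω []).2 0 ∈ S (z ++ [J])} ∩ NoV Z n J z F) ≤
      (((KK n Z)⁻¹ : ℝ≥0) : ℝ≥0∞) * (ENNReal.ofReal (Real.exp (mu * F.card)) *
        ((bt n (sh J Z) [] z : ℝ≥0∞) *
        ∫⁻ η, ENNReal.ofReal (Real.exp (-(Lam mu n (sh J Z) η {z} : ℝ)))
          ∂(PB mu n (sh J Z)))) := by
    intro z hz
    obtain ⟨hL1, hL2, hL3⟩ := hLaw mu n Z J z F hJ' hz
    rw [hL3 _ (hSm _)]
    have e1 : U (S (z ++ [J])) = (((KK n Z)⁻¹ * bt n (sh J Z) [] z : ℝ≥0) : ℝ≥0∞) := by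
      rw [hUS _ ((hA1 n Z J z).2.mpr ⟨hJ', hz⟩), (hA3 n Z J [] z).2.2.2.2.1, (hA4 n Z).1, hkap]
      congr 1
      have : (1 + KK n Z) ≠ 0 := by positivity
      field_simp
    rw [e1, ENNReal.coe_mul]
    calc (((KK n Z)⁻¹ : ℝ≥0) : ℝ≥0∞) * (bt n (sh J Z) [] z : ℝ≥0∞) * FM mu (NoV Z n J z F)
        ≤ (((KK n Z)⁻¹ : ℝ≥0) : ℝ≥0∞) * (bt n (sh J Z) [] z : ℝ≥0∞) *
          (ENNReal.ofReal (Real.exp (mu * F.card)) *
          ∫⁻ η, ENNReal.ofReal (Real.exp (-(Lam mu n (sh J Z) η {z} : ℝ)))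
          ∂(PB mu n (sh J Z))) := by
          gcongr _ * ?_
      _ = _ := by ring
  refine (Finset.sum_le_sum hterm).trans ?_
  rw [← Finset.mul_sum, ← Finset.mul_sum]
  calc (((KK n Z)⁻¹ : ℝ≥0) : ℝ≥0∞) * (ENNReal.ofReal (Real.exp (mu * F.card)) *
        ∑ z ∈ lev (sh J Z) n, ((bt n (sh J Z) [] z : ℝ≥0∞) *
        ∫⁻ η, ENNReal.ofReal (Real.exp (-(Lam mu n (sh J Z) η {z} : ℝ)))
          ∂(PB mu n (sh J Z))))
      ≤ (((KK n Z)⁻¹ : ℝ≥0) : ℝ≥0∞) * (ENNReal.ofReal (Real.exp (mu * F.card)) *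
        ((kap n (sh J Z) : ℝ≥0∞) * ∫⁻ lam, ENNReal.ofReal (Real.exp (-(lam : ℝ)))
          ∂(nu mu n (sh J Z)))) := by
        gcongr _ * (_ * ?_)
    _ = _ := by
        rw [div_eq_mul_inv, ENNReal.coe_mul]
        ring

end Pool.Agent.W298.FR
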