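import Pool.Agent.W298.FR.Claim

set_option autoImplicit false

/-!
# Stochastic monotonicity (task FR-MONO)
-/

namespace Pool.Agent.W298.FR

open MeasureTheory ProbabilityTheory Filter FrogGW FrogRec
open scoped ENNReal NNReal Classical Topology

/-- The integral as a function of the law of one coordinate, explicit form. -/
theorem lint_WW' (ν : ℕ → Measure ℝ≥0) (J : ℕ) (Ψ : (ℕ → ℝ × ℝ≥0) → ℝ≥0∞) (hΨ : Measurable Ψ)
    (ν' : ℕ → Measure ℝ≥0) (hν' : ∀ k, k ≠ J → ν' k = ν k) :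
    ∫⁻ w, Ψ w ∂(WW ν') =
      ∫⁻ lam, (∫⁻ u, ∫⁻ w, Ψ (Function.update w J (u, lam)) ∂(WW ν) ∂unif) ∂(pr (ν' J)) := by
  have hm0 : Measurable (fun q : (ℝ × ℝ≥0) × (ℕ → ℝ × ℝ≥0) => Function.update q.2 J q.1) :=
    (map_update (fun k => unif.prod (pr (ν k))) (fun k => unif.prod (pr (ν k))) J
      (fun _ _ => rfl)).1
  have hm1 : Measurable fun x : ℝ × ℝ≥0 => ∫⁻ w, Ψ (Function.update w J x) ∂(WW ν) :=
    (hΨ.comp hm0).lintegral_prod_right'
  have h1 := (map_update (fun k => unif.prod (pr (ν' k))) (fun k => unif.prod (pr (ν k))) J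
    (fun k hk => by rw [hν' k hk])).2
  have h2 : WW ν' = ((unif.prod (pr (ν' J))).prod (WW ν)).map
      (fun q : (ℝ × ℝ≥0) × (ℕ → ℝ × ℝ≥0) => Function.update q.2 J q.1) := h1.symm
  have h3 : ∫⁻ q : (ℝ × ℝ≥0) × (ℕ → ℝ × ℝ≥0), Ψ (Function.update q.2 J q.1)
      ∂((unif.prod (pr (ν' J))).prod (WW ν)) =
      ∫⁻ x, ∫⁻ w, Ψ (Function.update w J x) ∂(WW ν) ∂(unif.prod (pr (ν' J))) :=
    lintegral_prod _ (hΨ.comp hm0).aemeasurable
  rw [h2, lintegral_map hΨ hm0, h3, lintegral_prod_symm _ hm1.aemeasurable]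

/-- Only the laws of the coordinates on which the function depends matter. -/
theorem lint_WW_congr (ν ν' : ℕ → Measure ℝ≥0) (S : Finset ℕ) (Ψ : (ℕ → ℝ × ℝ≥0) → ℝ≥0∞)
    (hΨ : Measurable Ψ) (hS : ∀ w w', (∀ k ∈ S, w k = w' k) → Ψ w = Ψ w')
    (h : ∀ k ∈ S, ν k = ν' k) : ∫⁻ w, Ψ w ∂(WW ν) = ∫⁻ w, Ψ w ∂(WW ν') := by
  let ext : (S → ℝ × ℝ≥0) → (ℕ → ℝ × ℝ≥0) := fun x k => if h : k ∈ S then x ⟨k, h⟩ else (0, 0)
  have hext : Measurable ext := by
    rw [measurable_pi_iff]
    intro k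
    by_cases hk : k ∈ S
    · simp only [ext, dif_pos hk]
      exact measurable_pi_apply _
    · simp only [ext, dif_neg hk]
      exact measurable_const
  have key : ∀ ρ : ℕ → Measure ℝ≥0, ∫⁻ w, Ψ w ∂(WW ρ) =
      ∫⁻ x, Ψ (ext x) ∂(Measure.pi fun i : S => unif.prod (pr (ρ i))) := by
    intro ρ
    have h1 := lintegral_restrict_infinitePi (μ := fun k => unif.prod (pr (ρ k))) (s := S)
      (hΨ.comp hext)
    refine Eq.trans ?_ h1
    apply lintegral_congr
    intro w
    apply hS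
    intro k hk
    simp only [ext, dif_pos hk]
    rfl
  rw [key, key]
  have : (fun i : S => unif.prod (pr (ν i))) = fun i : S => unif.prod (pr (ν' i)) := by
    funext i
    rw [h i i.2]
  simp only [this]

theorem mono : TaskSelM → TaskSelMeas → TaskMono := by
  intro hSelM hSel mu c κ s J ν ν' φ hc hJ hν hν' hφ hle
  obtain ⟨hM, -, -⟩ := hSelM
  have hφm : Measurable φ := hφ.measurable
  set Ψ : (ℕ → ℝ × ℝ≥0) → ℝ≥0∞ := fun w => φ (Sel (mu + (w J).2) c κ s w) with hΨd
  have hΨ : Measurable Ψ := by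
    have h2 : Measurable fun w : ℕ → ℝ × ℝ≥0 => (mu + (w J).2, w) := by fun_prop
    exact hφm.comp ((hSel c κ s hc).comp h2)
  have hanti : ∀ (w : ℕ → ℝ × ℝ≥0) (k0 : ℕ) (u : ℝ),
      Antitone fun lam : ℝ≥0 => Ψ (Function.update w k0 (u, lam)) := by
    intro w k0 u lam lam' hl
    apply hφ
    have hk : ∀ k, ((Function.update w k0 (u, lam)) k).1 =
        ((Function.update w k0 (u, lam')) k).1 ∧ ((Function.update w k0 (u, lam)) k).2 ≤
        ((Function.update w k0 (u, lam')) k).2 := by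
      intro k
      by_cases hk : k = k0
      · subst hk
        simp [hl]
      · simp [Function.update_of_ne hk]
    exact hM _ _ _ _ _ _ _ _ hc (by gcongr; exact (hk J).2) (Finset.Subset.refl _)
      (fun k _ => hk k)
  have hind : ∀ T : Finset ℕ, T ⊆ insert J s →
      ∫⁻ w, Ψ w ∂(WW ν) ≤ ∫⁻ w, Ψ w ∂(WW fun k => if k ∈ T then ν' k else ν k) := by
    intro T
    induction T using Finset.induction_on with
    | empty =>
      intro _
      simp
    | insert k0 T hk0 ih =>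
      intro hT
      refine (ih ((Finset.subset_insert _ _).trans hT)).trans ?_
      set ρ : ℕ → Measure ℝ≥0 := fun k => if k ∈ T then ν' k else ν k with hρ
      have h1 := lint_WW' ρ k0 Ψ hΨ ρ (fun _ _ => rfl)
      have h2 := lint_WW' ρ k0 Ψ hΨ (fun k => if k ∈ insert k0 T then ν' k else ν k) (by
        intro k hk
        simp only [hρ, Finset.mem_insert, hk, false_or])
      rw [h1, h2]
      have e1 : ρ k0 = ν k0 := if_neg hk0
      have e2 : (fun k => if k ∈ insert k0 T then ν' k else ν k) k0 = ν' k0 :=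
        if_pos (Finset.mem_insert_self _ _)
      simp only [e1, e2]
      rw [pr_eq _ (hν k0), pr_eq _ (hν' k0)]
      apply hle k0 (hT (Finset.mem_insert_self _ _))
      intro lam lam' hl
      apply lintegral_mono
      intro u
      apply lintegral_mono
      intro w
      exact hanti w k0 u hl
  refine (hind (insert J s) (Finset.Subset.refl _)).trans (le_of_eq ?_)
  apply lint_WW_congr _ _ (insert J s) Ψ hΨ
  · intro w w' hw
    have h1 : w J = w' J := hw J (Finset.mem_insert_self _ _)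
    have h2 : ∀ k ∈ s, w k = w' k := fun k hk => hw k (Finset.mem_insert_of_mem hk)
    simp only [hΨd, h1]
    congr 1
    unfold Sel
    congr 1
    ext t
    simp only [Set.mem_ofPred_eq]
    rw [Finset.sum_congr rfl]
    intro k hk
    rw [h2 k hk]
  · intro k hk
    rw [if_pos hk]

end Pool.Agent.W298.FR
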